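import Pool.Agent.H46.MT.Main

/-!
# MP_cb7589_nt, Q1 in full

Unconditionally there are a constant `c > 2 - 1 / c_MT` and a function `o` with `o(T) → 0` such
that `N_s(T, 2T) ≥ (c - o(T)) N(T, 2T)` for all `T > 0`. Here (file `Pool/Agent/H46/MT/Defs.lean`)
`mult ρ` is the order of zeta at `ρ`, `zeroSet T₁ T₂` is the set of the zeros `ρ` of zeta with
`0 < Re ρ < 1` and `T₁ < Im ρ ≤ T₂`, `zeroCount T₁ T₂` is the sum of `mult ρ` over it,
`simpleSet T₁ T₂` is its subset of the points with `Re ρ = 1/2` and `mult ρ = 1`,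
`simpleCount T₁ T₂` is the cardinality of that subset, and
`cMT = √2 tan (1/√2) / (1 + tan (1/√2) / √2)`.
-/

namespace Pool.Agent.Results.MP_cb7589_nt.BeyondMT

open Filter Topology Pool.Agent.H46.MT

theorem result :
    ∃ c : ℝ, c > 2 - cMT⁻¹ ∧ ∃ o : ℝ → ℝ, Tendsto o atTop (𝓝 0) ∧
      ∀ T : ℝ, 0 < T →
        (simpleCount T (2 * T) : ℝ) ≥ (c - o T) * (zeroCount T (2 * T) : ℝ) := by
  obtain ⟨c, T₀, hc, h⟩ := Main.main
  refine ⟨c, hc, fun T => if T < T₀ then c else 0, ?_, ?_⟩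
  · refine tendsto_const_nhds.congr' ?_
    filter_upwards [eventually_ge_atTop T₀] with T hT
    rw [if_neg (not_lt.mpr hT)]
  · intro T _
    show (simpleCount T (2 * T) : ℝ) ≥
      (c - if T < T₀ then c else 0) * (zeroCount T (2 * T) : ℝ)
    by_cases hT : T < T₀
    · rw [if_pos hT, sub_self, zero_mul]
      positivity
    · rw [if_neg hT, sub_zero]
      exact h T (not_lt.mp hT)

end Pool.Agent.Results.MP_cb7589_nt.BeyondMT
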